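import Mathlib

set_option autoImplicit false

namespace Pool.Agent.Results.MP_8ae111_al.JordanFixed

/-- derived series of an additive subgroup `S` of a ring: `S`, `S S`, `(S S)(S S)`, ... -/
def derived {R : Type} [NonUnitalNonAssocRing R] (S : AddSubgroup R) : ℕ → AddSubgroup R
  | 0 => S
  | n + 1 => AddSubgroup.closure {z | ∃ x ∈ derived S n, ∃ y ∈ derived S n, z = x * y}

/-- the cross product algebra over the field with two elements -/
def A : Type := ZMod 2 × ZMod 2 × ZMod 2

instance : AddCommGroup A := inferInstanceAs (AddCommGroup (ZMod 2 × ZMod 2 × ZMod 2))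
instance : DecidableEq A := inferInstanceAs (DecidableEq (ZMod 2 × ZMod 2 × ZMod 2))
instance : Fintype A := inferInstanceAs (Fintype (ZMod 2 × ZMod 2 × ZMod 2))

instance : NonUnitalNonAssocCommRing A :=
  { (inferInstance : AddCommGroup A) with
    mul := fun x y => (x.2.1 * y.2.2 + x.2.2 * y.2.1, x.1 * y.2.2 + x.2.2 * y.1,
      x.1 * y.2.1 + x.2.1 * y.1)
    left_distrib := by decide +kernel
    right_distrib := by decide +kernel
    zero_mul := by decide +kernel
    mul_zero := by decide +kernel
    mul_comm := by decide +kernel }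

def e : A := (1, 0, 0)

def g : RingAut A where
  toFun x := (x.2.1, x.2.2, x.1)
  invFun x := (x.2.2, x.1, x.2.1)
  left_inv _ := rfl
  right_inv _ := rfl
  map_mul' := by decide +kernel
  map_add' _ _ := rfl

theorem g_order : orderOf g = 3 := by
  have : Fact (Nat.Prime 3) := ⟨by norm_num⟩
  refine orderOf_eq_prime (RingEquiv.ext fun _ => rfl) fun h => ?_
  have : g e = e := by rw [h]; rfl
  exact absurd this (by decide +kernel)

theorem perfect (n : ℕ) : derived (⊤ : AddSubgroup A) n = ⊤ := by
  induction n with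
  | zero => rfl
  | succ n ih =>
    rw [derived, ih, eq_top_iff]
    intro z _
    have : ∀ z : A, ∃ x y : A, z = x * y := by decide +kernel
    obtain ⟨x, y, h⟩ := this z
    exact AddSubgroup.subset_closure ⟨x, trivial, y, trivial, h⟩

/-- There are a Jordan ring `J` and a finite group `G` of automorphisms of `J` such that `J` has no
`|G|`-torsion and the fixed subring is solvable, but `J` is not solvable. -/
theorem result : ∃ (J : Type) (_ : NonUnitalNonAssocCommRing J),
    (∀ x y : J, (x * x * y) * x = (x * x) * (y * x)) ∧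
    ∃ G : Subgroup (RingAut J), Finite G ∧ (∀ a : J, Nat.card G • a = 0 → a = 0) ∧
      (∃ F : AddSubgroup J, (∀ a : J, a ∈ F ↔ ∀ φ ∈ G, φ a = a) ∧ ∃ n, derived F n = ⊥) ∧
      ¬ ∃ n, derived (⊤ : AddSubgroup J) n = ⊥ := by
  refine ⟨A, inferInstance, by decide +kernel, Subgroup.zpowers g, ?_, ?_, ?_, ?_⟩
  · exact Nat.finite_of_card_ne_zero (by rw [Nat.card_zpowers, g_order]; norm_num)
  · rw [Nat.card_zpowers, g_order]
    decide +kernel
  · let F : AddSubgroup A :=
      { carrier := {x | ∀ φ ∈ Subgroup.zpowers g, φ x = x}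
        add_mem' := fun ha hb φ h => by rw [map_add, ha φ h, hb φ h]
        zero_mem' := fun φ _ => map_zero φ
        neg_mem' := fun ha φ h => by rw [map_neg, ha φ h] }
    refine ⟨F, fun _ => Iff.rfl, 1, ?_⟩
    rw [derived, AddSubgroup.closure_eq_bot_iff]
    rintro _ ⟨x, hx, y, hy, rfl⟩
    have : ∀ x y : A, g x = x → g y = y → x * y = 0 := by decide +kernel
    exact this x y (hx g (Subgroup.mem_zpowers g)) (hy g (Subgroup.mem_zpowers g))
  · rintro ⟨n, hn⟩
    rw [perfect] at hn
    have : e ∈ (⊥ : AddSubgroup A) := hn ▸ trivial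
    rw [AddSubgroup.mem_bot] at this
    exact absurd this (by decide +kernel)

end Pool.Agent.Results.MP_8ae111_al.JordanFixed
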